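import Pool.Agent.H55.Cos2.Main

/-!
MP_61a9b3_gt, Q1 (Arhangel'skii): the three dimension functions need not coincide for topological groups
with a countable network. There is (in ZFC) a Hausdorff abelian topological group `G` with a countable
network, `dim G ≤ 1`, `ind G ≥ 2` and `Ind G ≥ 2`.

The definitions `HasCountableNetwork`, `covDim`, `smallInd`, `largeInd` are in `Pool.Agent.H55.Cos2.Defs`.
-/

namespace Pool.Agent.Results.MP_61a9b3_gt.DimensionsDiffer

open Pool.Agent.H55.Cos2

/-- There is a Hausdorff abelian topological group with a countable network whose covering dimension is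
at most `1`, while both inductive dimensions are at least `2`. -/
theorem result :
    ∃ (G : Type) (_ : CommGroup G) (_ : TopologicalSpace G), IsTopologicalGroup G ∧ T2Space G ∧
      HasCountableNetwork G ∧ covDim G ≤ 1 ∧ 2 ≤ smallInd G ∧ 2 ≤ largeInd G :=
  main.1

end Pool.Agent.Results.MP_61a9b3_gt.DimensionsDiffer
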